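import Mathlib

/-!
# A convex body in `ℝ⁵` is not determined by the `4 × 4` minors condition

For `q ≥ 0` on the pairs of `{0,…,4}` let `Q(q)` be the symmetric `5 × 5` matrix with zero diagonal
and entries `q i j`.  We exhibit a `q` all of whose `4 × 4` principal submatrices of `Q(q)` have at
most one positive eigenvalue, but which is not the vector of coordinate-plane projection areas of
any convex body of `ℝ⁵`: put `5` on the five edges of a pentagon and `13` on its five diagonals.

The obstruction is the inequality (`shadow_ineq`), valid for every convex body and every three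
coordinates `i, j, k` (`w` = width in a coordinate direction, `S` = area of a coordinate shadow):

  `w k * S i j ≤ 5/4 * (w j * S i k + w i * S j k)`.

Summing it over the five triples `(i, i+2; i+1)` gives `13 ≤ 25/2` for the pentagonal vector.

Proof of the inequality.  Normalise the third coordinate `z` to range over `[0,1]`.  Over the first
coordinate the body has lower and upper envelopes `a x ≤ z ≤ 1 - a' x`, over the second one
`b y ≤ z ≤ 1 - b' y`.  A point of the `(x,y)`-shadow satisfies `a x + b' y ≤ 1` and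
`a' x + b y ≤ 1`; each of the two regions has area at most `2 (∫ (1-a)) (∫ (1-b'))`
(resp. `2 (∫ (1-a')) (∫ (1-b))`) by `lemZ`, and together they cover the whole rectangle.
-/

open MeasureTheory Set

namespace Pool.Agent.Results.MP_2d1483_gt.PentagonCounterexample

/-- integral of a linear function over an interval, as a lintegral -/
lemma lint_linear {p q : ℝ} (hpq : p ≤ q) (u v : ℝ) (hnn : ∀ x ∈ Icc p q, 0 ≤ u + v * x) :
    ∫⁻ x in Icc p q, ENNReal.ofReal (u + v * x)
      = ENNReal.ofReal (u * (q - p) + v * (q ^ 2 - p ^ 2) / 2) := by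
  have hint : IntegrableOn (fun x : ℝ => u + v * x) (Icc p q) := by
    apply ContinuousOn.integrableOn_Icc
    fun_prop
  rw [← ofReal_integral_eq_lintegral_ofReal hint]
  · congr 1
    rw [integral_Icc_eq_integral_Ioc, ← intervalIntegral.integral_of_le hpq]
    rw [intervalIntegral.integral_add (by simp) (by
      apply Continuous.intervalIntegrable; fun_prop)]
    rw [intervalIntegral.integral_const, intervalIntegral.integral_const_mul, integral_id]
    simp only [smul_eq_mul]
    ring
  · rw [Filter.EventuallyLE, ae_restrict_iff' measurableSet_Icc]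
    exact Filter.Eventually.of_forall (fun x hx => hnn x hx)

lemma lemX_right {x0 M : ℝ} {a : ℝ → ℝ}
    (hstar : ∀ x' x, x0 ≤ x' → x' ≤ x → x ≤ M → a x' * (x - x0) ≤ a x * (x' - x0))
    (ha0 : ∀ x ∈ Icc x0 M, 0 ≤ a x) (ha1 : ∀ x ∈ Icc x0 M, a x ≤ 1)
    {c : ℝ} (hc0 : 0 ≤ c) (hc1 : c < 1) (hm : Measurable a) :
    ∫⁻ x in Icc x0 M ∩ {x | 1 - a x ≤ c}, ENNReal.ofReal (1 - a x)
      ≤ ENNReal.ofReal (c ^ 2) * ∫⁻ x in Icc x0 M, ENNReal.ofReal (1 - a x) := by
  rcases le_or_gt M x0 with hM | hM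
  · have : volume (Icc x0 M) = 0 := by simp [Real.volume_Icc, hM]
    have h2 : volume (Icc x0 M ∩ {x | 1 - a x ≤ c}) = 0 := measure_mono_null inter_subset_left this
    rw [Measure.restrict_eq_zero.mpr h2]
    simp
  set E : Set ℝ := Icc x0 M ∩ {x | 1 - a x ≤ c} with hE
  rcases E.eq_empty_or_nonempty with hEe | ⟨x1, hx1⟩
  · rw [hEe]; simp
  have hEm : MeasurableSet E := by
    apply measurableSet_Icc.inter
    exact measurableSet_le (by fun_prop) measurable_const
  have hax0 : a x0 = 0 := by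
    have h1 := hstar x0 M le_rfl hM.le le_rfl
    have h2 := ha0 x0 ⟨le_rfl, hM.le⟩
    have h3 : 0 < M - x0 := by linarith
    nlinarith
  have hx1' : x0 < x1 := by
    rcases lt_or_eq_of_le hx1.1.1 with h | h
    · exact h
    · exfalso
      have := hx1.2
      simp only [mem_ofPred_eq] at this
      rw [← h, hax0] at this
      linarith
  -- lower bound for elements of E
  have hlow : ∀ x ∈ E, x0 + (1 - c) * (x1 - x0) ≤ x := by
    intro x hx
    rcases le_total x x1 with h | h
    · have h1 := hstar x x1 hx.1.1 h hx1.1.2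
      have h2 := ha1 x1 hx1.1
      have h3 : 1 - c ≤ a x := by have := hx.2; simp only [mem_ofPred_eq] at this; linarith
      have h4 : 0 ≤ x1 - x0 := by linarith
      have h5 : 0 ≤ x - x0 := by linarith [hx.1.1]
      nlinarith [mul_le_mul_of_nonneg_right h3 h4, mul_le_mul_of_nonneg_right h2 h5]
    · nlinarith
  have hbdd : BddBelow E := ⟨_, fun x hx => hlow x hx⟩
  set s := sInf E with hs
  have hsle : ∀ x ∈ E, s ≤ x := fun x hx => csInf_le hbdd hx
  have hsge : x0 + (1 - c) * (x1 - x0) ≤ s := le_csInf ⟨x1, hx1⟩ (fun x hx => hlow x hx)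
  have hd : 0 < s - x0 := by nlinarith
  set d := s - x0 with hdd
  have hsM : s ≤ M := le_trans (hsle x1 hx1) hx1.1.2
  -- (i)
  have hi : ∀ x ∈ E, (1 - c) * (x - x0) ≤ a x * d := by
    intro x hx
    have hcx : 1 - c ≤ a x := by have := hx.2; simp only [mem_ofPred_eq] at this; linarith
    have hax : 0 < a x := by linarith
    have : ((1 - c) * (x - x0)) / a x + x0 ≤ s := by
      apply le_csInf ⟨x1, hx1⟩
      intro x' hx'
      have hcx' : 1 - c ≤ a x' := by have := hx'.2; simp only [mem_ofPred_eq] at this; linarith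
      have hxx0 : 0 ≤ x - x0 := by linarith [hx.1.1]
      have key : (1 - c) * (x - x0) ≤ (x' - x0) * a x := by
        rcases le_total x' x with h | h
        · have h1 := hstar x' x hx'.1.1 h hx.1.2
          nlinarith [mul_le_mul_of_nonneg_right hcx' hxx0]
        · have h2 : x - x0 ≤ x' - x0 := by linarith
          nlinarith [mul_le_mul hcx h2 hxx0 hax.le]
      have := (div_le_iff₀ hax).mpr key
      linarith
    have h2 : ((1 - c) * (x - x0)) / a x ≤ d := by rw [hdd]; linarith
    have := (div_le_iff₀ hax).mp h2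
    linarith
  -- (ii)
  have hii : ∀ x, x0 ≤ x → x < s → a x * d ≤ (1 - c) * (x - x0) := by
    intro x hx0 hxs
    by_contra hcon
    push Not at hcon
    -- for x'' in (x, s): a x * (x''-x0) ≤ (1-c) (x - x0)
    have hx'' : ∀ x'', x < x'' → x'' < s → a x * (x'' - x0) ≤ (1 - c) * (x - x0) := by
      intro x'' h1 h2
      have h3 : x'' ∉ E := fun h => absurd (hsle x'' h) (not_le.mpr h2)
      have h4 : x'' ∈ Icc x0 M := ⟨by linarith, by linarith⟩
      have h5 : a x'' < 1 - c := by
        by_contra h6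
        push Not at h6
        exact h3 ⟨h4, by simp only [mem_ofPred_eq]; linarith⟩
      have h7 := hstar x x'' hx0 h1.le h4.2
      have h8 : 0 ≤ x - x0 := by linarith
      nlinarith [mul_le_mul_of_nonneg_right h5.le h8]
    have hax : 0 ≤ a x := ha0 x ⟨hx0, by linarith⟩
    -- choose x'' close to s
    have hcont : Filter.Tendsto (fun x'' => a x * (x'' - x0)) (nhdsWithin s (Iio s)) (nhds (a x * (s - x0))) := by
      apply Filter.Tendsto.mono_left _ nhdsWithin_le_nhds
      apply Continuous.tendsto (by fun_prop : Continuous (fun x'' => a x * (x'' - x0)))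
    have hle : a x * (s - x0) ≤ (1 - c) * (x - x0) := by
      apply le_of_tendsto hcont
      have : Ioo x s ∈ nhdsWithin s (Iio s) := Ioo_mem_nhdsLT hxs
      filter_upwards [this] with y hy
      exact hx'' y hy.1 hy.2
    rw [← hdd] at hle
    linarith
  -- integrals
  have hc1' : 0 < 1 - c := by linarith
  set e := ∫⁻ x in E, ENNReal.ofReal (1 - a x) with he
  have hb1 : e ≤ ENNReal.ofReal (c ^ 2 * d / (2 * (1 - c))) := by
    set t := x0 + d / (1 - c) with ht
    have hst : s ≤ t := by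
      rw [ht]
      have : d ≤ d / (1 - c) := by
        rw [le_div_iff₀ hc1']; nlinarith
      rw [hdd] at this ⊢
      linarith
    have hEsub : E ⊆ Icc s t ∪ {x | x ∈ E ∧ t < x} := by
      intro x hx
      rcases le_or_gt x t with h | h
      · left; exact ⟨hsle x hx, h⟩
      · right; exact ⟨hx, h⟩
    have hEsub' : E ⊆ Icc s t := by
      intro x hx
      refine ⟨hsle x hx, ?_⟩
      have h1 := hi x hx
      have h2 := ha1 x hx.1
      have h3 : (1 - c) * (x - x0) ≤ d := by nlinarith
      have h4 : x - x0 ≤ d / (1 - c) := by rw [le_div_iff₀ hc1']; linarith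
      rw [ht]; linarith
    have hlin : ∀ x ∈ Icc s t, 0 ≤ (1 + (1 - c) * x0 / d) + (-(1 - c) / d) * x := by
      intro x hx
      have h1 : x - x0 ≤ d / (1 - c) := by have := hx.2; rw [ht] at this; linarith
      have h2 : (1 - c) * (x - x0) ≤ d := by
        have := (le_div_iff₀ hc1').mp h1; linarith
      have h3 : (1 + (1 - c) * x0 / d) + (-(1 - c) / d) * x = (d - (1 - c) * (x - x0)) / d := by
        field_simp; ring
      rw [h3]
      apply div_nonneg _ hd.le
      linarith
    calc e ≤ ∫⁻ x in E, ENNReal.ofReal ((1 + (1 - c) * x0 / d) + (-(1 - c) / d) * x) := by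
          apply setLIntegral_mono' hEm
          intro x hx
          apply ENNReal.ofReal_le_ofReal
          have h1 := hi x hx
          have h3 : (1 + (1 - c) * x0 / d) + (-(1 - c) / d) * x = 1 - ((1 - c) * (x - x0)) / d := by
            field_simp; ring
          rw [h3]
          have h4 : ((1 - c) * (x - x0)) / d ≤ a x := by rw [div_le_iff₀ hd]; exact h1
          linarith
      _ ≤ ∫⁻ x in Icc s t, ENNReal.ofReal ((1 + (1 - c) * x0 / d) + (-(1 - c) / d) * x) :=
          lintegral_mono_set hEsub'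
      _ = _ := by
          rw [lint_linear hst _ _ hlin]
          congr 1
          have hs' : s = x0 + d := by rw [hdd]; ring
          rw [hs', ht]
          field_simp
          ring
  have hb2 : ENNReal.ofReal (d * (1 + c) / 2) + e ≤ ∫⁻ x in Icc x0 M, ENNReal.ofReal (1 - a x) := by
    have hdisj : Disjoint (Ico x0 s) E := by
      rw [Set.disjoint_left]
      intro x hx hxE
      exact absurd (hsle x hxE) (not_le.mpr hx.2)
    have hsub : Ico x0 s ∪ E ⊆ Icc x0 M := by
      intro x hx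
      rcases hx with hx | hx
      · exact ⟨hx.1, by linarith [hx.2]⟩
      · exact hx.1
    have h1 : ENNReal.ofReal (d * (1 + c) / 2) ≤ ∫⁻ x in Ico x0 s, ENNReal.ofReal (1 - a x) := by
      have hlin : ∀ x ∈ Icc x0 s, 0 ≤ (1 + (1 - c) * x0 / d) + (-(1 - c) / d) * x := by
        intro x hx
        have h1 : x - x0 ≤ d := by rw [hdd]; linarith [hx.2]
        have h3 : (1 + (1 - c) * x0 / d) + (-(1 - c) / d) * x = (d - (1 - c) * (x - x0)) / d := by
          field_simp; ring
        rw [h3]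
        apply div_nonneg _ hd.le
        nlinarith [hx.1]
      have h2 := lint_linear (by linarith : x0 ≤ s) _ _ hlin
      have h3 : (1 + (1 - c) * x0 / d) * (s - x0) + (-(1 - c) / d) * (s ^ 2 - x0 ^ 2) / 2
          = d * (1 + c) / 2 := by
        have hs' : s = x0 + d := by rw [hdd]; ring
        rw [hs']
        field_simp
        ring
      rw [h3] at h2
      rw [← h2, ← restrict_Ico_eq_restrict_Icc]
      apply setLIntegral_mono' measurableSet_Ico
      intro x hx
      apply ENNReal.ofReal_le_ofReal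
      have h4 := hii x hx.1 hx.2
      have h5 : (1 + (1 - c) * x0 / d) + (-(1 - c) / d) * x = 1 - ((1 - c) * (x - x0)) / d := by
        field_simp; ring
      rw [h5]
      have h6 : a x ≤ ((1 - c) * (x - x0)) / d := by rw [le_div_iff₀ hd]; exact h4
      linarith
    calc ENNReal.ofReal (d * (1 + c) / 2) + e
        ≤ (∫⁻ x in Ico x0 s, ENNReal.ofReal (1 - a x)) + ∫⁻ x in E, ENNReal.ofReal (1 - a x) := by
          gcongr
      _ = ∫⁻ x in Ico x0 s ∪ E, ENNReal.ofReal (1 - a x) := (lintegral_union hEm hdisj).symm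
      _ ≤ _ := lintegral_mono_set hsub
  -- conclude
  have he_fin : e ≠ ⊤ := ne_top_of_le_ne_top ENNReal.ofReal_ne_top hb1
  refine le_trans ?_ (mul_le_mul_right hb2 _)
  have he' : e = ENNReal.ofReal e.toReal := (ENNReal.ofReal_toReal he_fin).symm
  have he0 : 0 ≤ e.toReal := ENNReal.toReal_nonneg
  have hb1' : e.toReal ≤ c ^ 2 * d / (2 * (1 - c)) := by
    rw [he'] at hb1
    exact (ENNReal.ofReal_le_ofReal_iff (by positivity)).mp hb1
  rw [he', ← ENNReal.ofReal_add (by positivity) he0, ← ENNReal.ofReal_mul (by positivity)]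
  apply ENNReal.ofReal_le_ofReal
  have h1 : e.toReal * (1 - c ^ 2) ≤ c ^ 2 * (d * (1 + c) / 2) := by
    have h2 : 0 ≤ 1 - c ^ 2 := by nlinarith
    calc e.toReal * (1 - c ^ 2) ≤ c ^ 2 * d / (2 * (1 - c)) * (1 - c ^ 2) :=
          mul_le_mul_of_nonneg_right hb1' h2
      _ = c ^ 2 * (d * (1 + c) / 2) := by
          field_simp; ring
  nlinarith

/-- Star-shapedness about `x0` of a function on `[m, M]`: along each of the two rays starting at
`x0` the quotient `a x / |x - x0|` does not decrease. -/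
def StarAbout (m M x0 : ℝ) (a : ℝ → ℝ) : Prop :=
  (∀ x' x, x0 ≤ x' → x' ≤ x → x ≤ M → a x' * (x - x0) ≤ a x * (x' - x0)) ∧
  (∀ x' x, m ≤ x → x ≤ x' → x' ≤ x0 → a x' * (x0 - x) ≤ a x * (x0 - x'))

lemma lemX {m M x0 : ℝ} (hm0 : m ≤ x0) (hM0 : x0 ≤ M) {a : ℝ → ℝ} (hstar : StarAbout m M x0 a)
    (ha0 : ∀ x ∈ Icc m M, 0 ≤ a x) (ha1 : ∀ x ∈ Icc m M, a x ≤ 1)
    {c : ℝ} (hc0 : 0 ≤ c) (hc1 : c < 1) (hm : Measurable a) :
    ∫⁻ x in Icc m M ∩ {x | 1 - a x ≤ c}, ENNReal.ofReal (1 - a x)
      ≤ ENNReal.ofReal (c ^ 2) * ∫⁻ x in Icc m M, ENNReal.ofReal (1 - a x) := by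
  have hR := lemX_right (x0 := x0) (M := M) (a := a) hstar.1
    (fun x hx => ha0 x ⟨hm0.trans hx.1, hx.2⟩) (fun x hx => ha1 x ⟨hm0.trans hx.1, hx.2⟩) hc0 hc1 hm
  have hL := lemX_right (x0 := -x0) (M := -m) (a := fun x => a (-x))
    (by
      intro x' x h1 h2 h3
      have := hstar.2 (-x') (-x) (by linarith) (by linarith) (by linarith)
      have e1 : x0 - -x = x - -x0 := by ring
      have e2 : x0 - -x' = x' - -x0 := by ring
      rw [e1, e2] at this
      exact this)
    (fun x hx => ha0 (-x) ⟨by linarith [hx.2], by linarith [hx.1]⟩)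
    (fun x hx => ha1 (-x) ⟨by linarith [hx.2], by linarith [hx.1]⟩) hc0 hc1 (by fun_prop)
  -- transport hL by negation
  have hneg : MeasurePreserving (fun x : ℝ => -x) volume volume :=
    Measure.measurePreserving_neg volume
  have hEm : MeasurableSet {x | 1 - a x ≤ c} := measurableSet_le (by fun_prop) measurable_const
  have hf : Measurable (fun x => ENNReal.ofReal (1 - a x)) := by fun_prop
  have e1 : ∫⁻ x in Icc (-x0) (-m) ∩ {x | 1 - a (-x) ≤ c}, ENNReal.ofReal (1 - a (-x))
      = ∫⁻ x in Icc m x0 ∩ {x | 1 - a x ≤ c}, ENNReal.ofReal (1 - a x) := by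
    rw [← hneg.setLIntegral_comp_preimage (measurableSet_Icc.inter hEm) hf]
    congr 2
    ext x
    simp only [mem_inter_iff, mem_Icc, mem_ofPred_eq, mem_preimage]
    constructor
    · rintro ⟨⟨h1, h2⟩, h3⟩
      exact ⟨⟨by linarith, by linarith⟩, h3⟩
    · rintro ⟨⟨h1, h2⟩, h3⟩
      exact ⟨⟨by linarith, by linarith⟩, h3⟩
  have e2 : ∫⁻ x in Icc (-x0) (-m), ENNReal.ofReal (1 - a (-x))
      = ∫⁻ x in Icc m x0, ENNReal.ofReal (1 - a x) := by
    rw [← hneg.setLIntegral_comp_preimage measurableSet_Icc hf]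
    congr 2
    ext x
    simp only [mem_Icc, mem_preimage]
    constructor
    · rintro ⟨h1, h2⟩
      exact ⟨by linarith, by linarith⟩
    · rintro ⟨h1, h2⟩
      exact ⟨by linarith, by linarith⟩
  rw [e1, e2] at hL
  have hunion : Icc m M = Icc m x0 ∪ Icc x0 M := (Icc_union_Icc_eq_Icc hm0 hM0).symm
  calc ∫⁻ x in Icc m M ∩ {x | 1 - a x ≤ c}, ENNReal.ofReal (1 - a x)
      ≤ (∫⁻ x in Icc m x0 ∩ {x | 1 - a x ≤ c}, ENNReal.ofReal (1 - a x))
        + ∫⁻ x in Icc x0 M ∩ {x | 1 - a x ≤ c}, ENNReal.ofReal (1 - a x) := by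
        rw [hunion, union_inter_distrib_right]
        exact lintegral_union_le _ _ _
    _ ≤ ENNReal.ofReal (c ^ 2) * (∫⁻ x in Icc m x0, ENNReal.ofReal (1 - a x))
        + ENNReal.ofReal (c ^ 2) * ∫⁻ x in Icc x0 M, ENNReal.ofReal (1 - a x) := add_le_add hL hR
    _ = ENNReal.ofReal (c ^ 2) * ((∫⁻ x in Ico m x0, ENNReal.ofReal (1 - a x))
        + ∫⁻ x in Icc x0 M, ENNReal.ofReal (1 - a x)) := by
        rw [mul_add, restrict_Ico_eq_restrict_Icc]
    _ = ENNReal.ofReal (c ^ 2) * ∫⁻ x in Ico m x0 ∪ Icc x0 M, ENNReal.ofReal (1 - a x) := by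
        rw [lintegral_union measurableSet_Icc]
        rw [Set.disjoint_left]
        intro x hx hx'
        exact absurd hx'.1 (not_le.mpr hx.2)
    _ = _ := by rw [Ico_union_Icc_eq_Icc hm0 hM0]

/-- downward closed subsets of `(0,1]` -/
lemma lemD {m M x0 : ℝ} (hm0 : m ≤ x0) (hM0 : x0 ≤ M) {a : ℝ → ℝ} (hstar : StarAbout m M x0 a)
    (ha0 : ∀ x ∈ Icc m M, 0 ≤ a x) (ha1 : ∀ x ∈ Icc m M, a x ≤ 1)
    (hm : Measurable a) (D : Set ℝ) (hD01 : ∀ z ∈ D, 0 < z ∧ z ≤ 1)
    (hD : ∀ z ∈ D, ∀ z', 0 < z' → z' ≤ z → z' ∈ D) (hDm : MeasurableSet D) :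
    ∫⁻ x in Icc m M, ENNReal.ofReal (1 - a x) * D.indicator 1 (1 - a x)
      ≤ 2 * (∫⁻ z, ENNReal.ofReal z * D.indicator 1 z)
          * ∫⁻ x in Icc m M, ENNReal.ofReal (1 - a x) := by
  rcases D.eq_empty_or_nonempty with hDe | ⟨z0, hz0⟩
  · subst hDe; simp
  have hbdd : BddAbove D := ⟨1, fun z hz => (hD01 z hz).2⟩
  set c := sSup D with hc
  have hcle : ∀ z ∈ D, z ≤ c := fun z hz => le_csSup hbdd hz
  have hcpos : 0 < c := lt_of_lt_of_le (hD01 z0 hz0).1 (hcle z0 hz0)
  have hc1 : c ≤ 1 := csSup_le ⟨z0, hz0⟩ (fun z hz => (hD01 z hz).2)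
  have hIoo : Ioo 0 c ⊆ D := by
    intro z hz
    obtain ⟨z1, hz1, hlt⟩ := exists_lt_of_lt_csSup ⟨z0, hz0⟩ hz.2
    exact hD z1 hz1 z hz.1 hlt.le
  -- lower bound of the D integral
  have hlow : ENNReal.ofReal (c ^ 2 / 2) ≤ ∫⁻ z, ENNReal.ofReal z * D.indicator 1 z := by
    have h1 := lint_linear hcpos.le 0 1 (by intro x hx; simpa using hx.1)
    have h2 : (0:ℝ) * (c - 0) + 1 * (c ^ 2 - 0 ^ 2) / 2 = c ^ 2 / 2 := by ring
    rw [h2] at h1
    rw [← h1, ← restrict_Ioo_eq_restrict_Icc, ← lintegral_indicator measurableSet_Ioo]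
    apply lintegral_mono
    intro z
    by_cases hz : z ∈ Ioo 0 c
    · simp only [indicator_of_mem hz, indicator_of_mem (hIoo hz)]
      simp
    · simp only [indicator_of_notMem hz]
      exact zero_le
  have hup : ∫⁻ x in Icc m M, ENNReal.ofReal (1 - a x) * D.indicator 1 (1 - a x)
      ≤ ENNReal.ofReal (c ^ 2) * ∫⁻ x in Icc m M, ENNReal.ofReal (1 - a x) := by
    rcases lt_or_eq_of_le hc1 with hlt | heq
    · refine le_trans ?_ (lemX hm0 hM0 hstar ha0 ha1 hcpos.le hlt hm)
      have hEm : MeasurableSet {x | 1 - a x ≤ c} := measurableSet_le (by fun_prop) measurable_const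
      rw [← lintegral_indicator measurableSet_Icc, ← lintegral_indicator (measurableSet_Icc.inter hEm)]
      apply lintegral_mono
      intro x
      by_cases hx : x ∈ Icc m M
      · by_cases hx2 : 1 - a x ∈ D
        · have : x ∈ Icc m M ∩ {x | 1 - a x ≤ c} := ⟨hx, hcle _ hx2⟩
          simp only [indicator_of_mem hx, indicator_of_mem hx2, indicator_of_mem this]
          simp
        · simp only [indicator_of_mem hx, indicator_of_notMem hx2, mul_zero]
          exact zero_le
      · simp only [indicator_of_notMem hx]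
        exact zero_le
    · rw [heq]
      simp only [one_pow, ENNReal.ofReal_one, one_mul]
      apply lintegral_mono
      intro x
      by_cases hx2 : 1 - a x ∈ D
      · simp [indicator_of_mem hx2]
      · simp only [indicator_of_notMem hx2, mul_zero]
        exact zero_le
  refine le_trans hup ?_
  gcongr
  calc ENNReal.ofReal (c ^ 2) = 2 * ENNReal.ofReal (c ^ 2 / 2) := by
        rw [show (2 : ENNReal) = ENNReal.ofReal 2 by simp, ← ENNReal.ofReal_mul (by norm_num)]
        congr 1; ring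
    _ ≤ _ := by gcongr

lemma lemZ {m M x0 : ℝ} (hm0 : m ≤ x0) (hM0 : x0 ≤ M) {a : ℝ → ℝ} (hstar : StarAbout m M x0 a)
    (ha0 : ∀ x ∈ Icc m M, 0 ≤ a x) (ha1 : ∀ x ∈ Icc m M, a x ≤ 1) (hm : Measurable a)
    {m' M' y0 : ℝ} (hm0' : m' ≤ y0) (hM0' : y0 ≤ M') {k : ℝ → ℝ} (hstar' : StarAbout m' M' y0 k)
    (hkm : Measurable k)
    (hky0 : k y0 = 0) :
    volume {p : ℝ × ℝ | p.1 ∈ Icc m M ∧ p.2 ∈ Icc m' M' ∧ a p.1 + k p.2 ≤ 1}
      ≤ 2 * (∫⁻ x in Icc m M, ENNReal.ofReal (1 - a x))
          * ∫⁻ y in Icc m' M', ENNReal.ofReal (1 - k y) := by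
  set I := Icc m M with hI
  set J := Icc m' M' with hJ
  have hIm : MeasurableSet I := measurableSet_Icc
  have hJm : MeasurableSet J := measurableSet_Icc
  set S : Set (ℝ × ℝ) := {p | p.1 ∈ I ∧ p.2 ∈ J ∧ a p.1 + k p.2 ≤ 1} with hS
  have hSm : MeasurableSet S := by
    have h1 : MeasurableSet {p : ℝ × ℝ | p.1 ∈ I} := measurable_fst hIm
    have h2 : MeasurableSet {p : ℝ × ℝ | p.2 ∈ J} := measurable_snd hJm
    have h3 : MeasurableSet {p : ℝ × ℝ | a p.1 + k p.2 ≤ 1} :=
      measurableSet_le (by fun_prop) measurable_const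
    exact h1.inter (h2.inter h3)
  set F : ℝ → ENNReal := fun z => volume {y | y ∈ J ∧ k y ≤ z} with hF
  set T : Set (ℝ × ℝ) := {p | 0 < p.1 ∧ p.1 ≤ 1 ∧ y0 + p.1 * p.2 ∈ J ∧ k (y0 + p.1 * p.2) ≤ p.1}
    with hT
  have hTm : MeasurableSet T := by
    have h1 : MeasurableSet {p : ℝ × ℝ | 0 < p.1} := measurableSet_lt measurable_const measurable_fst
    have h2 : MeasurableSet {p : ℝ × ℝ | p.1 ≤ 1} := measurableSet_le measurable_fst measurable_const
    have h3 : MeasurableSet {p : ℝ × ℝ | y0 + p.1 * p.2 ∈ J} := by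
      have : Measurable (fun p : ℝ × ℝ => y0 + p.1 * p.2) := by fun_prop
      exact this hJm
    have h4 : MeasurableSet {p : ℝ × ℝ | k (y0 + p.1 * p.2) ≤ p.1} := by
      have : Measurable (fun p : ℝ × ℝ => y0 + p.1 * p.2) := by fun_prop
      exact measurableSet_le (hkm.comp this) measurable_fst
    exact h1.inter (h2.inter (h3.inter h4))
  set W : ℝ × ℝ → ENNReal := fun p => ENNReal.ofReal p.1 * T.indicator 1 p with hW
  have hWm : Measurable W := by
    apply Measurable.mul
    · fun_prop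
    · exact measurable_one.indicator hTm
  set A := ∫⁻ x in I, ENNReal.ofReal (1 - a x) with hA
  have hA_fin : A ≠ ⊤ := by
    have h1 : A ≤ ∫⁻ x in I, 1 := by
      apply setLIntegral_mono' hIm
      intro x hx
      have := ha0 x hx
      calc ENNReal.ofReal (1 - a x) ≤ ENNReal.ofReal 1 := ENNReal.ofReal_le_ofReal (by linarith)
        _ = 1 := by simp
    refine ne_top_of_le_ne_top ?_ h1
    simp [hI, Real.volume_Icc]
  -- (2) F z as an integral
  have hFz : ∀ z, 0 < z → z ≤ 1 → F z = ∫⁻ η, W (z, η) := by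
    intro z hz hz1
    have h1 : ∀ η, W (z, η) = ENNReal.ofReal z *
        ((fun η => y0 + z * η) ⁻¹' {y | y ∈ J ∧ k y ≤ z}).indicator 1 η := by
      intro η
      simp only [hW]
      congr 1
      by_cases h : (z, η) ∈ T
      · rw [indicator_of_mem h, indicator_of_mem]
        · simp
        · exact ⟨h.2.2.1, h.2.2.2⟩
      · rw [indicator_of_notMem h, indicator_of_notMem]
        intro h2
        exact h ⟨hz, hz1, h2.1, h2.2⟩
    have hSet : MeasurableSet {y | y ∈ J ∧ k y ≤ z} :=
      hJm.inter (measurableSet_le hkm measurable_const)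
    have hpre : MeasurableSet ((fun η => y0 + z * η) ⁻¹' {y | y ∈ J ∧ k y ≤ z}) := by
      have : Measurable (fun η : ℝ => y0 + z * η) := by fun_prop
      exact this hSet
    simp_rw [h1]
    rw [lintegral_const_mul _ (measurable_one.indicator hpre), lintegral_indicator_one hpre]
    have h2 : (fun η => y0 + z * η) ⁻¹' {y | y ∈ J ∧ k y ≤ z}
        = (fun η => z * η) ⁻¹' ((fun y => y0 + y) ⁻¹' {y | y ∈ J ∧ k y ≤ z}) := rfl
    rw [h2, Real.volume_preimage_mul_left hz.ne', measure_preimage_add, ← mul_assoc,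
      ← ENNReal.ofReal_mul hz.le, abs_of_pos (inv_pos.mpr hz), mul_inv_cancel₀ hz.ne']
    simp [hF]
  -- (1)
  have hN : volume S = ∫⁻ x in I, F (1 - a x) := by
    rw [Measure.volume_eq_prod, Measure.prod_apply hSm, ← lintegral_indicator hIm]
    apply lintegral_congr
    intro x
    by_cases hx : x ∈ I
    · rw [indicator_of_mem hx]
      simp only [hF]
      congr 1
      ext y
      simp only [hS, mem_preimage, mem_ofPred_eq]
      constructor
      · rintro ⟨_, h2, h3⟩
        exact ⟨h2, by linarith⟩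
      · rintro ⟨h2, h3⟩
        exact ⟨hx, h2, by linarith⟩
    · rw [indicator_of_notMem hx]
      have : Prod.mk x ⁻¹' S = ∅ := by
        ext y
        simp only [hS, mem_preimage, mem_ofPred_eq, mem_empty_iff_false, iff_false]
        rintro ⟨h, _⟩
        exact hx h
      rw [this]; simp
  have hae : ∀ᵐ x ∂(volume.restrict I), F (1 - a x) = ∫⁻ η, W (1 - a x, η) := by
    rw [ae_restrict_iff' hIm]
    have hnull : volume ({m, M} : Set ℝ) = 0 := by
      apply Set.Finite.measure_zero
      exact (Set.finite_singleton M).insert m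
    have : ∀ᵐ x ∂(volume : Measure ℝ), x ∉ ({m, M} : Set ℝ) :=
      measure_eq_zero_iff_ae_notMem.mp hnull
    filter_upwards [this] with x hx hxI
    apply hFz
    · -- a x < 1
      have hxm : x ≠ m := fun h => hx (by simp [h])
      have hxM : x ≠ M := fun h => hx (by simp [h])
      have h1 : m < x := lt_of_le_of_ne hxI.1 (Ne.symm hxm)
      have h2 : x < M := lt_of_le_of_ne hxI.2 hxM
      rcases le_total x0 x with h | h
      · have h3 := hstar.1 x M h h2.le le_rfl
        have h4 := ha1 M ⟨hm0.trans hM0, le_rfl⟩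
        have h5 := ha0 x hxI
        have h6 : 0 ≤ x - x0 := by linarith
        have h7 : 0 < M - x0 := by linarith
        have h8 : a x * (M - x0) ≤ x - x0 := by nlinarith
        by_contra h9
        push Not at h9
        nlinarith
      · have h3 := hstar.2 x m le_rfl h1.le h
        have h4 := ha1 m ⟨le_rfl, hm0.trans hM0⟩
        have h5 := ha0 x hxI
        have h6 : 0 ≤ x0 - x := by linarith
        have h7 : 0 < x0 - m := by linarith
        have h8 : a x * (x0 - m) ≤ x0 - x := by nlinarith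
        by_contra h9
        push Not at h9
        nlinarith
    · have := ha0 x hxI; linarith
  rw [hN, lintegral_congr_ae hae]
  -- (3) swap
  have hmeas1 : Measurable (Function.uncurry (fun x η => W (1 - a x, η))) := by
    have : Measurable (fun p : ℝ × ℝ => (1 - a p.1, p.2)) := by fun_prop
    exact hWm.comp this
  rw [lintegral_lintegral_swap hmeas1.aemeasurable]
  -- (4)
  have hinner : ∀ η, ∫⁻ x in I, W (1 - a x, η) ≤ 2 * (∫⁻ z, W (z, η)) * A := by
    intro η
    have hDm : MeasurableSet {z | (z, η) ∈ T} := by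
      have : Measurable (fun z : ℝ => (z, η)) := by fun_prop
      exact this hTm
    have h1 := lemD hm0 hM0 hstar ha0 ha1 hm {z | (z, η) ∈ T} (fun z hz => ⟨hz.1, hz.2.1⟩)
      (by
        intro z hz z' hz' hzz'
        obtain ⟨h1, h2, h3, h4⟩ := hz
        simp only at h1 h2 h3 h4
        refine ⟨hz', hzz'.trans h2, ?_, ?_⟩
        · simp only
          rcases le_total 0 η with h | h
          · refine ⟨?_, ?_⟩
            · have := mul_nonneg hz'.le h; linarith
            · have := mul_le_mul_of_nonneg_right hzz' h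
              linarith [h3.2]
          · refine ⟨?_, ?_⟩
            · have := mul_le_mul_of_nonpos_right hzz' h
              linarith [h3.1]
            · have := mul_nonpos_of_nonneg_of_nonpos hz'.le h; linarith
        · simp only
          rcases le_total 0 η with h | h
          · rcases eq_or_lt_of_le h with h0 | h0
            · rw [← h0, mul_zero, add_zero, hky0]; exact hz'.le
            · have h5 := hstar'.1 (y0 + z' * η) (y0 + z * η) (by nlinarith) (by nlinarith) h3.2
              have h6 : k (y0 + z' * η) * (z * η) ≤ k (y0 + z * η) * (z' * η) := by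
                have e1 : y0 + z * η - y0 = z * η := by ring
                have e2 : y0 + z' * η - y0 = z' * η := by ring
                rw [e1, e2] at h5; exact h5
              have h7 : k (y0 + z * η) * (z' * η) ≤ z * (z' * η) := by
                apply mul_le_mul_of_nonneg_right h4
                positivity
              have h8 : 0 < z * η := by positivity
              have h9 : k (y0 + z' * η) * (z * η) ≤ z' * (z * η) := by nlinarith
              exact le_of_mul_le_mul_right h9 h8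
          · rcases eq_or_lt_of_le h with h0 | h0
            · rw [h0, mul_zero, add_zero, hky0]; exact hz'.le
            · have h5 := hstar'.2 (y0 + z' * η) (y0 + z * η) h3.1 (by nlinarith) (by nlinarith)
              have h6 : k (y0 + z' * η) * (z * (-η)) ≤ k (y0 + z * η) * (z' * (-η)) := by
                have e1 : y0 - (y0 + z * η) = z * (-η) := by ring
                have e2 : y0 - (y0 + z' * η) = z' * (-η) := by ring
                rw [e1, e2] at h5; exact h5
              have h0' : 0 < -η := by linarith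
              have h7 : k (y0 + z * η) * (z' * (-η)) ≤ z * (z' * (-η)) := by
                apply mul_le_mul_of_nonneg_right h4
                positivity
              have h8 : 0 < z * (-η) := by positivity
              have h9 : k (y0 + z' * η) * (z * (-η)) ≤ z' * (z * (-η)) := by nlinarith
              exact le_of_mul_le_mul_right h9 h8) hDm
    have h2 : ∀ z, ENNReal.ofReal z * ({z | (z, η) ∈ T} : Set ℝ).indicator 1 z = W (z, η) := by
      intro z
      simp only [hW]
      congr 1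
    simp_rw [h2] at h1
    exact h1
  have hmeas2 : Measurable (Function.uncurry (fun η z => W (z, η))) := by
    have : Measurable (fun p : ℝ × ℝ => (p.2, p.1)) := by fun_prop
    exact hWm.comp this
  have hkey : ∫⁻ z, ∫⁻ η, W (z, η) ≤ ∫⁻ y in J, ENNReal.ofReal (1 - k y) := by
    -- ∫⁻ z, ∫⁻ η, W (z, η) ≤ ∫⁻ z in Ioc 0 1, F z
    calc ∫⁻ z, ∫⁻ η, W (z, η) = ∫⁻ z in Ioc 0 1, F z := by
          rw [← lintegral_indicator measurableSet_Ioc]
          apply lintegral_congr
          intro z
          by_cases hz : z ∈ Ioc (0:ℝ) 1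
          · rw [indicator_of_mem hz, hFz z hz.1 hz.2]
          · rw [indicator_of_notMem hz]
            have : ∀ η, W (z, η) = 0 := by
              intro η
              simp only [hW]
              rw [indicator_of_notMem, mul_zero]
              rintro ⟨h1, h2, _⟩
              exact hz ⟨h1, h2⟩
            simp [this]
      _ = ∫⁻ z in Ioc 0 1, ∫⁻ y in J, ({p : ℝ × ℝ | k p.2 ≤ p.1}).indicator 1 (z, y) := by
          apply lintegral_congr
          intro z
          simp only [hF]
          have hSet : MeasurableSet {y | k y ≤ z} := measurableSet_le hkm measurable_const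
          have h1 : ∀ y, ({p : ℝ × ℝ | k p.2 ≤ p.1}).indicator (1 : ℝ × ℝ → ENNReal) (z, y)
              = ({y | k y ≤ z} : Set ℝ).indicator 1 y := by
            intro y; rfl
          simp_rw [h1]
          rw [lintegral_indicator_one hSet, Measure.restrict_apply hSet]
          congr 1
          ext y
          simp only [mem_ofPred_eq, mem_inter_iff]
          tauto
      _ = ∫⁻ y in J, ∫⁻ z in Ioc 0 1, ({p : ℝ × ℝ | k p.2 ≤ p.1}).indicator 1 (z, y) := by
          apply lintegral_lintegral_swap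
          apply Measurable.aemeasurable
          apply measurable_one.indicator
          exact measurableSet_le (hkm.comp measurable_snd) measurable_fst
      _ ≤ ∫⁻ y in J, ENNReal.ofReal (1 - k y) := by
          apply setLIntegral_mono' hJm
          intro y hy
          have hSet : MeasurableSet {z | k y ≤ z} := measurableSet_le measurable_const measurable_id
          have h1 : ∀ z, ({p : ℝ × ℝ | k p.2 ≤ p.1}).indicator (1 : ℝ × ℝ → ENNReal) (z, y)
              = ({z | k y ≤ z} : Set ℝ).indicator 1 z := by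
            intro z; rfl
          simp_rw [h1]
          rw [lintegral_indicator_one hSet, Measure.restrict_apply hSet]
          calc volume ({z | k y ≤ z} ∩ Ioc 0 1) ≤ volume (Icc (k y) 1) := by
                apply measure_mono
                rintro z ⟨h1, h2⟩
                exact ⟨h1, h2.2⟩
            _ = _ := by rw [Real.volume_Icc]
  calc ∫⁻ η, ∫⁻ x in I, W (1 - a x, η) ≤ ∫⁻ η, 2 * (∫⁻ z, W (z, η)) * A :=
        lintegral_mono hinner
    _ = 2 * (∫⁻ η, ∫⁻ z, W (z, η)) * A := by
        rw [lintegral_mul_const' _ _ hA_fin, lintegral_const_mul' _ _ (by simp)]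
    _ = 2 * (∫⁻ z, ∫⁻ η, W (z, η)) * A := by
        rw [lintegral_lintegral_swap hmeas2.aemeasurable]
    _ ≤ 2 * (∫⁻ y in J, ENNReal.ofReal (1 - k y)) * A := by
        gcongr
    _ = _ := by ring

lemma half_lemma {m M x0 : ℝ} (hm0 : m ≤ x0) (hM0 : x0 ≤ M) {a : ℝ → ℝ} (hstar : StarAbout m M x0 a)
    (ha1 : ∀ x ∈ Icc m M, a x ≤ 1) :
    ENNReal.ofReal ((M - m) / 2) ≤ ∫⁻ x in Icc m M, ENNReal.ofReal (1 - a x) := by
  have hR : ENNReal.ofReal ((M - x0) / 2) ≤ ∫⁻ x in Icc x0 M, ENNReal.ofReal (1 - a x) := by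
    rcases lt_or_eq_of_le hM0 with h | h
    · have hd : 0 < M - x0 := by linarith
      have hlin : ∀ x ∈ Icc x0 M, 0 ≤ M / (M - x0) + (-1 / (M - x0)) * x := by
        intro x hx
        have : M / (M - x0) + (-1 / (M - x0)) * x = (M - x) / (M - x0) := by field_simp; ring
        rw [this]; exact div_nonneg (by linarith [hx.2]) hd.le
      have h1 := lint_linear hM0 _ _ hlin
      have h2 : M / (M - x0) * (M - x0) + -1 / (M - x0) * (M ^ 2 - x0 ^ 2) / 2 = (M - x0) / 2 := by
        field_simp; ring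
      rw [h2] at h1
      rw [← h1]
      apply setLIntegral_mono' measurableSet_Icc
      intro x hx
      apply ENNReal.ofReal_le_ofReal
      have h3 := hstar.1 x M hx.1 hx.2 le_rfl
      have h4 := ha1 M ⟨hm0.trans hM0, le_rfl⟩
      have h5 : a x * (M - x0) ≤ x - x0 := by nlinarith [hx.1]
      have h6 : a x ≤ (x - x0) / (M - x0) := by rw [le_div_iff₀ hd]; exact h5
      have h7 : M / (M - x0) + (-1 / (M - x0)) * x = 1 - (x - x0) / (M - x0) := by field_simp; ring
      rw [h7]; linarith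
    · rw [h]; simp
  have hL : ENNReal.ofReal ((x0 - m) / 2) ≤ ∫⁻ x in Icc m x0, ENNReal.ofReal (1 - a x) := by
    rcases lt_or_eq_of_le hm0 with h | h
    · have hd : 0 < x0 - m := by linarith
      have hlin : ∀ x ∈ Icc m x0, 0 ≤ (-m / (x0 - m)) + (1 / (x0 - m)) * x := by
        intro x hx
        have : (-m / (x0 - m)) + (1 / (x0 - m)) * x = (x - m) / (x0 - m) := by field_simp; ring
        rw [this]; exact div_nonneg (by linarith [hx.1]) hd.le
      have h1 := lint_linear hm0 _ _ hlin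
      have h2 : (-m / (x0 - m)) * (x0 - m) + 1 / (x0 - m) * (x0 ^ 2 - m ^ 2) / 2 = (x0 - m) / 2 := by
        field_simp; ring
      rw [h2] at h1
      rw [← h1]
      apply setLIntegral_mono' measurableSet_Icc
      intro x hx
      apply ENNReal.ofReal_le_ofReal
      have h3 := hstar.2 x m le_rfl hx.1 hx.2
      have h4 := ha1 m ⟨le_rfl, hm0.trans hM0⟩
      have h5 : a x * (x0 - m) ≤ x0 - x := by nlinarith [hx.2]
      have h6 : a x ≤ (x0 - x) / (x0 - m) := by rw [le_div_iff₀ hd]; exact h5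
      have h7 : (-m / (x0 - m)) + (1 / (x0 - m)) * x = 1 - (x0 - x) / (x0 - m) := by field_simp; ring
      rw [h7]; linarith
    · rw [h]; simp
  calc ENNReal.ofReal ((M - m) / 2) = ENNReal.ofReal ((x0 - m) / 2) + ENNReal.ofReal ((M - x0) / 2) := by
        rw [← ENNReal.ofReal_add (by linarith) (by linarith)]; congr 1; ring
    _ ≤ (∫⁻ x in Icc m x0, ENNReal.ofReal (1 - a x)) + ∫⁻ x in Icc x0 M, ENNReal.ofReal (1 - a x) :=
        add_le_add hL hR
    _ = (∫⁻ x in Ico m x0, ENNReal.ofReal (1 - a x)) + ∫⁻ x in Icc x0 M, ENNReal.ofReal (1 - a x) := by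
        rw [restrict_Ico_eq_restrict_Icc]
    _ = ∫⁻ x in Ico m x0 ∪ Icc x0 M, ENNReal.ofReal (1 - a x) := by
        rw [lintegral_union measurableSet_Icc]
        rw [Set.disjoint_left]
        intro x hx hx'
        exact absurd hx'.1 (not_le.mpr hx.2)
    _ = _ := by rw [Ico_union_Icc_eq_Icc hm0 hM0]

section Envelope

variable {E : Type*} [AddCommGroup E] [Module ℝ E] [TopologicalSpace E]

/-- continuous affine real function -/
def AffC (f : E → ℝ) : Prop :=
  Continuous f ∧ ∀ (p q : E) (s t : ℝ), s + t = 1 → f (s • p + t • q) = s * f p + t * f q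

open Classical in
/-- lower envelope of `ρ` over the fibres of `f` on `A` -/
noncomputable def lowerEnv (A : Set E) (f ρ : E → ℝ) (x : ℝ) : ℝ :=
  if x ∈ f '' A then sInf (ρ '' (A ∩ {p | f p = x})) else 1

variable {A : Set E} {f ρ : E → ℝ}

lemma env_spec (hA : IsCompact A) (hf : Continuous f) (hρ : Continuous ρ) {x : ℝ}
    (hx : x ∈ f '' A) :
    ∃ p ∈ A, f p = x ∧ ρ p = lowerEnv A f ρ x ∧ ∀ q ∈ A, f q = x → ρ p ≤ ρ q := by
  have hK : IsCompact (A ∩ {p | f p = x}) := by
    apply hA.inter_right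
    exact isClosed_eq hf continuous_const
  have hKne : (A ∩ {p | f p = x}).Nonempty := by
    obtain ⟨p, hp, hpx⟩ := hx
    exact ⟨p, hp, hpx⟩
  obtain ⟨p, hp, hmin⟩ := hK.exists_isMinOn hKne hρ.continuousOn
  refine ⟨p, hp.1, hp.2, ?_, fun q hq hqx => hmin ⟨hq, hqx⟩⟩
  have : IsLeast (ρ '' (A ∩ {p | f p = x})) (ρ p) := by
    refine ⟨⟨p, hp, rfl⟩, ?_⟩
    rintro _ ⟨q, hq, rfl⟩
    exact hmin hq
  unfold lowerEnv
  rw [if_pos hx, this.csInf_eq]

lemma env_le (hA : IsCompact A) (hf : Continuous f) (hρ : Continuous ρ) {p : E} (hp : p ∈ A) :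
    lowerEnv A f ρ (f p) ≤ ρ p := by
  obtain ⟨q, hq, hqx, hqe, hmin⟩ := env_spec hA hf hρ (⟨p, hp, rfl⟩ : f p ∈ f '' A)
  rw [← hqe]
  exact hmin p hp rfl

lemma env_measurable (hA : IsCompact A) (hf : Continuous f) (hρ : Continuous ρ)
    (hρ1 : ∀ p ∈ A, ρ p ≤ 1) : Measurable (lowerEnv A f ρ) := by
  apply measurable_of_Iic
  intro w
  rcases lt_or_ge w 1 with hw | hw
  · have : lowerEnv A f ρ ⁻¹' Iic w = f '' (A ∩ {p | ρ p ≤ w}) := by
      ext x
      simp only [mem_preimage, mem_Iic, mem_image]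
      constructor
      · intro h
        by_cases hx : x ∈ f '' A
        · obtain ⟨p, hp, hpx, hpe, _⟩ := env_spec hA hf hρ hx
          refine ⟨p, ⟨hp, ?_⟩, hpx⟩
          simp only [mem_ofPred_eq]; rw [hpe]; exact h
        · exfalso
          unfold lowerEnv at h
          rw [if_neg hx] at h
          linarith
      · rintro ⟨p, ⟨hp, hpw⟩, rfl⟩
        exact (env_le hA hf hρ hp).trans hpw
    rw [this]
    apply IsCompact.measurableSet
    apply IsCompact.image _ hf
    exact hA.inter_right (isClosed_le hρ continuous_const)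
  · have : lowerEnv A f ρ ⁻¹' Iic w = univ := by
      ext x
      simp only [mem_preimage, mem_Iic, mem_univ, iff_true]
      by_cases hx : x ∈ f '' A
      · obtain ⟨p, hp, hpx, hpe, _⟩ := env_spec hA hf hρ hx
        rw [← hpe]; exact (hρ1 p hp).trans hw
      · unfold lowerEnv; rw [if_neg hx]; exact hw
    rw [this]; exact MeasurableSet.univ

lemma env_nonneg (hA : IsCompact A) (hf : Continuous f) (hρ : Continuous ρ)
    (hρ0 : ∀ p ∈ A, 0 ≤ ρ p) {x : ℝ} (hx : x ∈ f '' A) : 0 ≤ lowerEnv A f ρ x := by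
  obtain ⟨p, hp, hpx, hpe, _⟩ := env_spec hA hf hρ hx
  rw [← hpe]; exact hρ0 p hp

lemma env_le_one (hA : IsCompact A) (hf : Continuous f) (hρ : Continuous ρ)
    (hρ1 : ∀ p ∈ A, ρ p ≤ 1) {x : ℝ} (hx : x ∈ f '' A) : lowerEnv A f ρ x ≤ 1 := by
  obtain ⟨p, hp, hpx, hpe, _⟩ := env_spec hA hf hρ hx
  rw [← hpe]; exact hρ1 p hp

lemma env_star_aux (hA : IsCompact A) (hAc : Convex ℝ A) (hf : AffC f) (hρ : AffC ρ)
    {p0 : E} (hp0 : p0 ∈ A) (hρp0 : ρ p0 = 0) {x : ℝ} (hx : x ∈ f '' A) {θ : ℝ} (h0 : 0 ≤ θ)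
    (h1 : θ ≤ 1) : lowerEnv A f ρ (f p0 + θ * (x - f p0)) ≤ θ * lowerEnv A f ρ x := by
  obtain ⟨p, hp, hpx, hpe, _⟩ := env_spec hA hf.1 hρ.1 hx
  have hq : (1 - θ) • p0 + θ • p ∈ A := hAc hp0 hp (by linarith) h0 (by ring)
  have e1 : f ((1 - θ) • p0 + θ • p) = f p0 + θ * (x - f p0) := by
    rw [hf.2 p0 p (1 - θ) θ (by ring), hpx]; ring
  have e2 : ρ ((1 - θ) • p0 + θ • p) = θ * ρ p := by
    rw [hρ.2 p0 p (1 - θ) θ (by ring), hρp0]; ring
  have := env_le hA hf.1 hρ.1 hq
  rw [e1, e2, hpe] at this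
  exact this

lemma env_zero (hA : IsCompact A) (hf : AffC f) (hρ : AffC ρ)
    (hρ0 : ∀ p ∈ A, 0 ≤ ρ p)
    {p0 : E} (hp0 : p0 ∈ A) (hρp0 : ρ p0 = 0) : lowerEnv A f ρ (f p0) = 0 := by
  apply le_antisymm
  · have := env_le hA hf.1 hρ.1 hp0
    rwa [hρp0] at this
  · exact env_nonneg hA hf.1 hρ.1 hρ0 ⟨p0, hp0, rfl⟩

lemma env_star (hA : IsCompact A) (hAc : Convex ℝ A) (hf : AffC f) (hρ : AffC ρ)
    {p0 : E} (hp0 : p0 ∈ A) (hρp0 : ρ p0 = 0) {m M : ℝ} (hI : f '' A = Icc m M) :
    StarAbout m M (f p0) (lowerEnv A f ρ) := by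
  have hx0 : f p0 ∈ Icc m M := by rw [← hI]; exact ⟨p0, hp0, rfl⟩
  constructor
  · intro x' x h1 h2 h3
    rcases eq_or_lt_of_le (h1.trans h2) with h | h
    · have e1 : x' = f p0 := le_antisymm (by linarith) h1
      rw [e1, ← h]
    · have hd : 0 < x - f p0 := by linarith
      have hx : x ∈ f '' A := by rw [hI]; exact ⟨hx0.1.trans h.le, h3⟩
      have := env_star_aux hA hAc hf hρ hp0 hρp0 hx (θ := (x' - f p0) / (x - f p0))
        (div_nonneg (by linarith) hd.le) ((div_le_one hd).mpr (by linarith))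
      have e : f p0 + (x' - f p0) / (x - f p0) * (x - f p0) = x' := by field_simp; ring
      rw [e] at this
      calc lowerEnv A f ρ x' * (x - f p0) ≤ ((x' - f p0) / (x - f p0) * lowerEnv A f ρ x) * (x - f p0) :=
            mul_le_mul_of_nonneg_right this hd.le
        _ = _ := by field_simp
  · intro x' x h1 h2 h3
    rcases eq_or_lt_of_le (h2.trans h3) with h | h
    · have e1 : x' = f p0 := le_antisymm h3 (by linarith)
      rw [e1, h]
    · have hd : 0 < f p0 - x := by linarith
      have hx : x ∈ f '' A := by rw [hI]; exact ⟨h1, h.le.trans hx0.2⟩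
      have := env_star_aux hA hAc hf hρ hp0 hρp0 hx (θ := (f p0 - x') / (f p0 - x))
        (div_nonneg (by linarith) hd.le) ((div_le_one hd).mpr (by linarith))
      have e : f p0 + (f p0 - x') / (f p0 - x) * (x - f p0) = x' := by field_simp; ring
      rw [e] at this
      calc lowerEnv A f ρ x' * (f p0 - x) ≤ ((f p0 - x') / (f p0 - x) * lowerEnv A f ρ x) * (f p0 - x) :=
            mul_le_mul_of_nonneg_right this hd.le
        _ = _ := by field_simp

/-- area of the planar shadow `(f, r)` where `r = mr + w * ρ` -/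
lemma area_shadow (hA : IsCompact A) (hAc : Convex ℝ A) (hf : AffC f) (hρ : AffC ρ)
    {r : E → ℝ} (hr : Continuous r) {mr w : ℝ} (hw : 0 < w)
    (hrρ : ∀ p ∈ A, r p = mr + w * ρ p) (hmeas : MeasurableSet (f '' A)) :
    volume ((fun p => (f p, r p)) '' A)
      = ENNReal.ofReal w * ∫⁻ x in f '' A, ENNReal.ofReal (1 - lowerEnv A f (fun p => 1 - ρ p) x - lowerEnv A f ρ x) := by
  have hSc : IsCompact ((fun p => (f p, r p)) '' A) := hA.image (hf.1.prodMk hr)
  have hρ' : Continuous (fun p => 1 - ρ p) := continuous_const.sub hρ.1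
  rw [← lintegral_const_mul' _ _ ENNReal.ofReal_ne_top]
  rw [Measure.volume_eq_prod, Measure.prod_apply hSc.measurableSet, ← lintegral_indicator hmeas]
  apply lintegral_congr
  intro x
  by_cases hx : x ∈ f '' A
  · rw [indicator_of_mem hx]
    obtain ⟨p, hp, hpx, hpe, _⟩ := env_spec hA hf.1 hρ.1 hx
    obtain ⟨p', hp', hpx', hpe', _⟩ := env_spec hA hf.1 hρ' hx
    have hslice : Prod.mk x ⁻¹' ((fun p => (f p, r p)) '' A)
        = Icc (mr + w * lowerEnv A f ρ x) (mr + w * (1 - lowerEnv A f (fun p => 1 - ρ p) x)) := by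
      ext z
      simp only [mem_preimage, mem_image, Prod.mk.injEq, mem_Icc]
      constructor
      · rintro ⟨q, hq, hqx, hqz⟩
        have h1 := env_le hA hf.1 hρ.1 hq
        have h2 := env_le hA hf.1 hρ' hq
        rw [hqx] at h1 h2
        rw [← hqz, hrρ q hq]
        constructor
        · nlinarith
        · nlinarith
      · rintro ⟨h1, h2⟩
        -- z = mr + w * ζ
        have hζ1 : ρ p ≤ (z - mr) / w := by rw [le_div_iff₀ hw, hpe]; linarith
        have hζ2 : (z - mr) / w ≤ ρ p' := by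
          rw [div_le_iff₀ hw]
          have : ρ p' = 1 - lowerEnv A f (fun p => 1 - ρ p) x := by rw [← hpe']; ring
          rw [this]; linarith
        rcases eq_or_lt_of_le (hζ1.trans hζ2) with h | h
        · refine ⟨p, hp, hpx, ?_⟩
          rw [hrρ p hp]
          have : ρ p = (z - mr) / w := le_antisymm hζ1 (by rw [h]; exact hζ2)
          rw [this]; field_simp; ring
        · have hd : 0 < ρ p' - ρ p := by linarith
          set t := ((z - mr) / w - ρ p) / (ρ p' - ρ p) with ht
          have ht0 : 0 ≤ t := div_nonneg (by linarith) hd.le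
          have ht1 : t ≤ 1 := (div_le_one hd).mpr (by linarith)
          refine ⟨(1 - t) • p + t • p', hAc hp hp' (by linarith) ht0 (by ring), ?_, ?_⟩
          · rw [hf.2 p p' (1 - t) t (by ring), hpx, hpx']; ring
          · rw [hrρ _ (hAc hp hp' (by linarith) ht0 (by ring)), hρ.2 p p' (1 - t) t (by ring)]
            have : (1 - t) * ρ p + t * ρ p' = (z - mr) / w := by
              rw [ht]; field_simp; ring
            rw [this]; field_simp; ring
    rw [hslice, Real.volume_Icc, ← ENNReal.ofReal_mul hw.le]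
    congr 1; ring
  · rw [indicator_of_notMem hx]
    have : Prod.mk x ⁻¹' ((fun p => (f p, r p)) '' A) = ∅ := by
      ext z
      simp only [mem_preimage, mem_image, Prod.mk.injEq, mem_empty_iff_false, iff_false]
      rintro ⟨q, hq, hqx, _⟩
      exact hx ⟨q, hq, hqx⟩
    rw [this]; simp

lemma real_ineq {i j α α' β β' N1 N2 S : ℝ} (hi : 0 < i) (hj : 0 < j)
    (hα : i / 2 ≤ α) (hα' : i / 2 ≤ α') (hβ : j / 2 ≤ β) (hβ' : j / 2 ≤ β')
    (hN1 : N1 ≤ 2 * α * β') (hN1' : N1 ≤ i * j) (hN2 : N2 ≤ 2 * α' * β) (hN2' : N2 ≤ i * j)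
    (hS : S + i * j ≤ N1 + N2) :
    S ≤ 5 / 4 * (j * (α + α' - i) + i * (β + β' - j)) := by
  have key : ∀ N P Q : ℝ, i / 2 ≤ P → j / 2 ≤ Q → N ≤ 2 * P * Q → N ≤ i * j →
      N - i * j / 2 ≤ 5 / 4 * (j * (P - i / 2) + i * (Q - j / 2)) := by
    intro N P Q hP hQ h1 h2
    set u := j * (P - i / 2) with hu
    set v := i * (Q - j / 2) with hv
    have hu0 : 0 ≤ u := mul_nonneg hj.le (by linarith)
    have hv0 : 0 ≤ v := mul_nonneg hi.le (by linarith)
    have hij : 0 < i * j := mul_pos hi hj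
    rcases le_total (i * j / 2) (u + v) with h | h
    · nlinarith
    · have h3 : (2 * P * Q) * (i * j) = (i * j) * (i * j) / 2 + (i * j) * (u + v) + 2 * (u * v) := by
        rw [hu, hv]; ring
      have h4 : 4 * (u * v) ≤ (u + v) * (u + v) := by nlinarith [sq_nonneg (u - v)]
      have h5 : (u + v) * (u + v) ≤ (i * j / 2) * (u + v) :=
        mul_le_mul_of_nonneg_right h (by linarith)
      have h6 : 2 * P * Q * (i * j) ≤ (i * j / 2 + 5 / 4 * (u + v)) * (i * j) := by nlinarith
      have h7 : 2 * P * Q ≤ i * j / 2 + 5 / 4 * (u + v) := le_of_mul_le_mul_right h6 hij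
      linarith
  have k1 := key N1 α β' hα hβ' hN1 hN1'
  have k2 := key N2 α' β hα' hβ hN2 hN2'
  nlinarith

/-- bookkeeping for one base coordinate: `∫ (1 - a' - a) + |I| = ∫ (1 - a) + ∫ (1 - a')`. -/
lemma lint_split {m M : ℝ} {a a' : ℝ → ℝ} (hm : Measurable a) (hm' : Measurable a')
    (h : ∀ x ∈ Icc m M, a x + a' x ≤ 1) (h0 : ∀ x ∈ Icc m M, 0 ≤ a x)
    (h0' : ∀ x ∈ Icc m M, 0 ≤ a' x) :
    (∫⁻ x in Icc m M, ENNReal.ofReal (1 - a' x - a x)) + ENNReal.ofReal (M - m)
      = (∫⁻ x in Icc m M, ENNReal.ofReal (1 - a x))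
        + ∫⁻ x in Icc m M, ENNReal.ofReal (1 - a' x) := by
  have e1 : ENNReal.ofReal (M - m) = ∫⁻ x in Icc m M, ENNReal.ofReal 1 := by
    simp [Real.volume_Icc]
  rw [e1, ← lintegral_add_left (by fun_prop), ← lintegral_add_left (by fun_prop)]
  apply setLIntegral_congr_fun measurableSet_Icc
  intro x hx
  have h1 := h x hx
  have h2 := h0 x hx
  have h3 := h0' x hx
  simp only
  rw [← ENNReal.ofReal_add (by linarith) (by norm_num), ← ENNReal.ofReal_add (by linarith) (by linarith)]
  congr 1; ring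

lemma lint_fin {m M : ℝ} {a : ℝ → ℝ} (h0 : ∀ x ∈ Icc m M, 0 ≤ a x) :
    ∫⁻ x in Icc m M, ENNReal.ofReal (1 - a x) ≠ ⊤ := by
  have h1 : ∫⁻ x in Icc m M, ENNReal.ofReal (1 - a x) ≤ ∫⁻ x in Icc m M, 1 := by
    apply setLIntegral_mono' measurableSet_Icc
    intro x hx
    have := h0 x hx
    calc ENNReal.ofReal (1 - a x) ≤ ENNReal.ofReal 1 := ENNReal.ofReal_le_ofReal (by linarith)
      _ = 1 := by simp
  refine ne_top_of_le_ne_top ?_ h1
  simp [Real.volume_Icc]

theorem shadow_ineq (hA : IsCompact A) (hAc : Convex ℝ A) {f g r : E → ℝ}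
    (hf : AffC f) (hg : AffC g) (hr : AffC r) {m M m' M' mr Mr : ℝ}
    (hI : f '' A = Icc m M) (hJ : g '' A = Icc m' M') (hK : r '' A = Icc mr Mr)
    (hmM : m < M) (hmM' : m' < M') (hmMr : mr < Mr) :
    (Mr - mr) * (volume ((fun p => (f p, g p)) '' A)).toReal
      ≤ 5 / 4 * ((M' - m') * (volume ((fun p => (f p, r p)) '' A)).toReal
        + (M - m) * (volume ((fun p => (g p, r p)) '' A)).toReal) := by
  set w := Mr - mr with hw
  have hwpos : 0 < w := by linarith
  set ρ : E → ℝ := fun p => (r p - mr) / w with hρdef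
  set ρ' : E → ℝ := fun p => 1 - ρ p with hρ'def
  have hρ : AffC ρ := by
    refine ⟨(hr.1.sub continuous_const).div_const w, ?_⟩
    intro p q s t hst
    simp only [hρdef]
    rw [hr.2 p q s t hst]
    field_simp
    linear_combination mr * hst
  have hρ' : AffC ρ' := by
    refine ⟨continuous_const.sub hρ.1, ?_⟩
    intro p q s t hst
    simp only [hρ'def]
    rw [hρ.2 p q s t hst]
    linear_combination (-1) * hst
  have hrange : ∀ p ∈ A, 0 ≤ ρ p ∧ ρ p ≤ 1 := by
    intro p hp
    have h1 : r p ∈ Icc mr Mr := by rw [← hK]; exact ⟨p, hp, rfl⟩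
    constructor
    · exact div_nonneg (by linarith [h1.1]) hwpos.le
    · rw [div_le_one hwpos]; linarith [h1.2]
  have hρ0 : ∀ p ∈ A, 0 ≤ ρ p := fun p hp => (hrange p hp).1
  have hρ1 : ∀ p ∈ A, ρ p ≤ 1 := fun p hp => (hrange p hp).2
  have hρ0' : ∀ p ∈ A, 0 ≤ ρ' p := fun p hp => by simp only [hρ'def]; linarith [hρ1 p hp]
  have hρ1' : ∀ p ∈ A, ρ' p ≤ 1 := fun p hp => by simp only [hρ'def]; linarith [hρ0 p hp]
  obtain ⟨p0, hp0, hp0r⟩ : mr ∈ r '' A := by rw [hK]; exact ⟨le_rfl, hmMr.le⟩
  obtain ⟨p1, hp1, hp1r⟩ : Mr ∈ r '' A := by rw [hK]; exact ⟨hmMr.le, le_rfl⟩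
  have hρp0 : ρ p0 = 0 := by simp [hρdef, hp0r]
  have hρp1 : ρ' p1 = 0 := by
    simp only [hρ'def, hρdef, hp1r]
    rw [← hw, div_self hwpos.ne']; ring
  -- the four envelopes
  set a := lowerEnv A f ρ with ha
  set a' := lowerEnv A f ρ' with ha'
  set b := lowerEnv A g ρ with hb
  set b' := lowerEnv A g ρ' with hb'
  have ma : Measurable a := env_measurable hA hf.1 hρ.1 hρ1
  have ma' : Measurable a' := env_measurable hA hf.1 hρ'.1 hρ1'
  have mb : Measurable b := env_measurable hA hg.1 hρ.1 hρ1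
  have mb' : Measurable b' := env_measurable hA hg.1 hρ'.1 hρ1'
  have a0 : ∀ x ∈ Icc m M, 0 ≤ a x := fun x hx => env_nonneg hA hf.1 hρ.1 hρ0 (hI ▸ hx)
  have a0' : ∀ x ∈ Icc m M, 0 ≤ a' x := fun x hx => env_nonneg hA hf.1 hρ'.1 hρ0' (hI ▸ hx)
  have b0 : ∀ x ∈ Icc m' M', 0 ≤ b x := fun x hx => env_nonneg hA hg.1 hρ.1 hρ0 (hJ ▸ hx)
  have b0' : ∀ x ∈ Icc m' M', 0 ≤ b' x := fun x hx => env_nonneg hA hg.1 hρ'.1 hρ0' (hJ ▸ hx)
  have a1 : ∀ x ∈ Icc m M, a x ≤ 1 := fun x hx => env_le_one hA hf.1 hρ.1 hρ1 (hI ▸ hx)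
  have a1' : ∀ x ∈ Icc m M, a' x ≤ 1 := fun x hx => env_le_one hA hf.1 hρ'.1 hρ1' (hI ▸ hx)
  have b1 : ∀ x ∈ Icc m' M', b x ≤ 1 := fun x hx => env_le_one hA hg.1 hρ.1 hρ1 (hJ ▸ hx)
  have b1' : ∀ x ∈ Icc m' M', b' x ≤ 1 := fun x hx => env_le_one hA hg.1 hρ'.1 hρ1' (hJ ▸ hx)
  have aa' : ∀ x ∈ Icc m M, a x + a' x ≤ 1 := by
    intro x hx
    obtain ⟨p, hp, rfl⟩ : x ∈ f '' A := hI ▸ hx
    have h1 := env_le hA hf.1 hρ.1 hp
    have h2 := env_le hA hf.1 hρ'.1 hp
    have h3 : ρ' p = 1 - ρ p := rfl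
    rw [h3] at h2
    linarith
  have bb' : ∀ x ∈ Icc m' M', b x + b' x ≤ 1 := by
    intro x hx
    obtain ⟨p, hp, rfl⟩ : x ∈ g '' A := hJ ▸ hx
    have h1 := env_le hA hg.1 hρ.1 hp
    have h2 := env_le hA hg.1 hρ'.1 hp
    have h3 : ρ' p = 1 - ρ p := rfl
    rw [h3] at h2
    linarith
  have sa : StarAbout m M (f p0) a := env_star hA hAc hf hρ hp0 hρp0 hI
  have sa' : StarAbout m M (f p1) a' := env_star hA hAc hf hρ' hp1 hρp1 hI
  have sb : StarAbout m' M' (g p0) b := env_star hA hAc hg hρ hp0 hρp0 hJ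
  have sb' : StarAbout m' M' (g p1) b' := env_star hA hAc hg hρ' hp1 hρp1 hJ
  have zb : b (g p0) = 0 := env_zero hA hg hρ hρ0 hp0 hρp0
  have zb' : b' (g p1) = 0 := env_zero hA hg hρ' hρ0' hp1 hρp1
  have if0 : f p0 ∈ Icc m M := hI ▸ ⟨p0, hp0, rfl⟩
  have if1 : f p1 ∈ Icc m M := hI ▸ ⟨p1, hp1, rfl⟩
  have ig0 : g p0 ∈ Icc m' M' := hJ ▸ ⟨p0, hp0, rfl⟩
  have ig1 : g p1 ∈ Icc m' M' := hJ ▸ ⟨p1, hp1, rfl⟩
  -- the two planar regions
  set V1 : Set (ℝ × ℝ) := {p | p.1 ∈ Icc m M ∧ p.2 ∈ Icc m' M' ∧ a p.1 + b' p.2 ≤ 1} with hV1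
  set V2 : Set (ℝ × ℝ) := {p | p.1 ∈ Icc m M ∧ p.2 ∈ Icc m' M' ∧ a' p.1 + b p.2 ≤ 1} with hV2
  have hz1 : volume V1 ≤ 2 * (∫⁻ x in Icc m M, ENNReal.ofReal (1 - a x))
      * ∫⁻ y in Icc m' M', ENNReal.ofReal (1 - b' y) :=
    lemZ if0.1 if0.2 sa a0 a1 ma ig1.1 ig1.2 sb' mb' zb'
  have hz2 : volume V2 ≤ 2 * (∫⁻ x in Icc m M, ENNReal.ofReal (1 - a' x))
      * ∫⁻ y in Icc m' M', ENNReal.ofReal (1 - b y) :=
    lemZ if1.1 if1.2 sa' a0' a1' ma' ig0.1 ig0.2 sb mb zb
  have hbox : volume (Icc m M ×ˢ Icc m' M') = ENNReal.ofReal ((M - m) * (M' - m')) := by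
    rw [Measure.volume_eq_prod, Measure.prod_prod, Real.volume_Icc, Real.volume_Icc,
      ← ENNReal.ofReal_mul (by linarith)]
  have mV2 : MeasurableSet V2 := by
    have h1 : MeasurableSet {p : ℝ × ℝ | p.1 ∈ Icc m M} := measurable_fst measurableSet_Icc
    have h2 : MeasurableSet {p : ℝ × ℝ | p.2 ∈ Icc m' M'} := measurable_snd measurableSet_Icc
    have h3 : MeasurableSet {p : ℝ × ℝ | a' p.1 + b p.2 ≤ 1} :=
      measurableSet_le ((ma'.comp measurable_fst).add (mb.comp measurable_snd)) measurable_const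
    exact h1.inter (h2.inter h3)
  have hV1box : V1 ⊆ Icc m M ×ˢ Icc m' M' := fun p hp => ⟨hp.1, hp.2.1⟩
  have hV2box : V2 ⊆ Icc m M ×ˢ Icc m' M' := fun p hp => ⟨hp.1, hp.2.1⟩
  have hunion : V1 ∪ V2 = Icc m M ×ˢ Icc m' M' := by
    apply Subset.antisymm (union_subset hV1box hV2box)
    rintro ⟨x, y⟩ ⟨hx, hy⟩
    simp only at hx hy
    by_cases h : a x + b' y ≤ 1
    · left; exact ⟨hx, hy, h⟩
    · right
      refine ⟨hx, hy, ?_⟩
      have h1 := aa' x hx
      have h2 := bb' y hy
      simp only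
      push Not at h
      linarith
  have hsub : (fun p => (f p, g p)) '' A ⊆ V1 ∩ V2 := by
    rintro _ ⟨p, hp, rfl⟩
    have h1 := env_le hA hf.1 hρ.1 hp
    have h2 := env_le hA hf.1 hρ'.1 hp
    have h3 := env_le hA hg.1 hρ.1 hp
    have h4 := env_le hA hg.1 hρ'.1 hp
    have h5 : ρ' p = 1 - ρ p := rfl
    rw [h5] at h2 h4
    have i1 : f p ∈ Icc m M := hI ▸ ⟨p, hp, rfl⟩
    have i2 : g p ∈ Icc m' M' := hJ ▸ ⟨p, hp, rfl⟩
    refine ⟨⟨i1, i2, ?_⟩, ⟨i1, i2, ?_⟩⟩
    · simp only; linarith
    · simp only; linarith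
  have hie : volume ((fun p => (f p, g p)) '' A) + ENNReal.ofReal ((M - m) * (M' - m'))
      ≤ volume V1 + volume V2 := by
    rw [← measure_union_add_inter V1 mV2, hunion, hbox, add_comm]
    gcongr
  -- pass to real numbers
  have fin1 := lint_fin a0
  have fin1' := lint_fin a0'
  have fin2 := lint_fin b0
  have fin2' := lint_fin b0'
  have finV1 : volume V1 ≠ ⊤ := ne_top_of_le_ne_top (by rw [hbox]; simp) (measure_mono hV1box)
  have finV2 : volume V2 ≠ ⊤ := ne_top_of_le_ne_top (by rw [hbox]; simp) (measure_mono hV2box)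
  have finS : volume ((fun p => (f p, g p)) '' A) ≠ ⊤ :=
    ne_top_of_le_ne_top finV1 (measure_mono (hsub.trans inter_subset_left))
  have hfr := area_shadow hA hAc hf hρ hr.1 (mr := mr) hwpos
    (by intro p hp; simp only [hρdef]; field_simp; ring) (by rw [hI]; exact measurableSet_Icc)
  have hgr := area_shadow hA hAc hg hρ hr.1 (mr := mr) hwpos
    (by intro p hp; simp only [hρdef]; field_simp; ring) (by rw [hJ]; exact measurableSet_Icc)
  have hs1 := lint_split ma ma' aa' a0 a0'
  have hs2 := lint_split mb mb' bb' b0 b0'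
  rw [hI] at hfr
  rw [hJ] at hgr
  have finf : ∫⁻ x in Icc m M, ENNReal.ofReal (1 - a' x - a x) ≠ ⊤ := by
    refine ne_top_of_le_ne_top fin1 ?_
    apply setLIntegral_mono' measurableSet_Icc
    intro x hx
    apply ENNReal.ofReal_le_ofReal
    linarith [a0' x hx]
  have fing : ∫⁻ x in Icc m' M', ENNReal.ofReal (1 - b' x - b x) ≠ ⊤ := by
    refine ne_top_of_le_ne_top fin2 ?_
    apply setLIntegral_mono' measurableSet_Icc
    intro x hx
    apply ENNReal.ofReal_le_ofReal
    linarith [b0' x hx]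
  set α := (∫⁻ x in Icc m M, ENNReal.ofReal (1 - a x)).toReal with hα
  set α' := (∫⁻ x in Icc m M, ENNReal.ofReal (1 - a' x)).toReal with hα'
  set β := (∫⁻ x in Icc m' M', ENNReal.ofReal (1 - b x)).toReal with hβ
  set β' := (∫⁻ x in Icc m' M', ENNReal.ofReal (1 - b' x)).toReal with hβ'
  have r1 : (volume ((fun p => (f p, r p)) '' A)).toReal = w * (α + α' - (M - m)) := by
    rw [hfr, ENNReal.toReal_mul, ENNReal.toReal_ofReal hwpos.le]
    congr 1
    have := congrArg ENNReal.toReal hs1
    rw [ENNReal.toReal_add finf ENNReal.ofReal_ne_top, ENNReal.toReal_add fin1 fin1',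
      ENNReal.toReal_ofReal (by linarith)] at this
    linarith
  have r2 : (volume ((fun p => (g p, r p)) '' A)).toReal = w * (β + β' - (M' - m')) := by
    rw [hgr, ENNReal.toReal_mul, ENNReal.toReal_ofReal hwpos.le]
    congr 1
    have := congrArg ENNReal.toReal hs2
    rw [ENNReal.toReal_add fing ENNReal.ofReal_ne_top, ENNReal.toReal_add fin2 fin2',
      ENNReal.toReal_ofReal (by linarith)] at this
    linarith
  have c1 : (M - m) / 2 ≤ α := by
    have := half_lemma if0.1 if0.2 sa a1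
    exact (ENNReal.ofReal_le_iff_le_toReal fin1).mp this
  have c1' : (M - m) / 2 ≤ α' := by
    have := half_lemma if1.1 if1.2 sa' a1'
    exact (ENNReal.ofReal_le_iff_le_toReal fin1').mp this
  have c2 : (M' - m') / 2 ≤ β := by
    have := half_lemma ig0.1 ig0.2 sb b1
    exact (ENNReal.ofReal_le_iff_le_toReal fin2).mp this
  have c2' : (M' - m') / 2 ≤ β' := by
    have := half_lemma ig1.1 ig1.2 sb' b1'
    exact (ENNReal.ofReal_le_iff_le_toReal fin2').mp this
  have d1 : (volume V1).toReal ≤ 2 * α * β' := by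
    have := ENNReal.toReal_mono (by
      apply ENNReal.mul_ne_top (ENNReal.mul_ne_top (by simp) fin1) fin2') hz1
    rw [ENNReal.toReal_mul, ENNReal.toReal_mul] at this
    simpa using this
  have d2 : (volume V2).toReal ≤ 2 * α' * β := by
    have := ENNReal.toReal_mono (by
      apply ENNReal.mul_ne_top (ENNReal.mul_ne_top (by simp) fin1') fin2) hz2
    rw [ENNReal.toReal_mul, ENNReal.toReal_mul] at this
    simpa using this
  have hbox0 : 0 ≤ (M - m) * (M' - m') := mul_nonneg (by linarith) (by linarith)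
  have d1' : (volume V1).toReal ≤ (M - m) * (M' - m') := by
    have := ENNReal.toReal_mono (by rw [hbox]; simp) (measure_mono (μ := volume) hV1box)
    rwa [hbox, ENNReal.toReal_ofReal hbox0] at this
  have d2' : (volume V2).toReal ≤ (M - m) * (M' - m') := by
    have := ENNReal.toReal_mono (by rw [hbox]; simp) (measure_mono (μ := volume) hV2box)
    rwa [hbox, ENNReal.toReal_ofReal hbox0] at this
  have d3 : (volume ((fun p => (f p, g p)) '' A)).toReal + (M - m) * (M' - m')
      ≤ (volume V1).toReal + (volume V2).toReal := by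
    have := ENNReal.toReal_mono (ENNReal.add_ne_top.mpr ⟨finV1, finV2⟩) hie
    rwa [ENNReal.toReal_add finS ENNReal.ofReal_ne_top, ENNReal.toReal_add finV1 finV2,
      ENNReal.toReal_ofReal hbox0] at this
  have fin := real_ineq (by linarith : 0 < M - m) (by linarith : 0 < M' - m') c1 c1' c2 c2'
    d1 d1' d2 d2' d3
  rw [r1, r2]
  calc w * (volume ((fun p => (f p, g p)) '' A)).toReal
      ≤ w * (5 / 4 * ((M' - m') * (α + α' - (M - m)) + (M - m) * (β + β' - (M' - m')))) :=
        mul_le_mul_of_nonneg_left fin hwpos.le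
    _ = _ := by ring

end Envelope


/-- The real matrix `M` is symmetric and has at most one positive eigenvalue, counted with
multiplicity. -/
def AtMostOnePosEigenvalue {n : Type*} [Fintype n] [DecidableEq n] (M : Matrix n n ℝ) : Prop :=
  ∃ hM : M.IsHermitian, (Finset.univ.filter fun i => 0 < hM.eigenvalues i).card ≤ 1

open Matrix in
lemma eig_criterion {n : Type*} [Fintype n] [DecidableEq n] (M : Matrix n n ℝ)
    (hM : M.IsHermitian) (l : n → ℝ) (h : ∀ v : n → ℝ, l ⬝ᵥ v = 0 → v ⬝ᵥ (M *ᵥ v) ≤ 0) :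
    AtMostOnePosEigenvalue M := by
  refine ⟨hM, ?_⟩
  rw [Finset.card_le_one]
  intro a ha b hb
  by_contra hab
  simp only [Finset.mem_filter, Finset.mem_univ, true_and] at ha hb
  set ua : n → ℝ := ⇑(hM.eigenvectorBasis a) with hua
  set ub : n → ℝ := ⇑(hM.eigenvectorBasis b) with hub
  have ea : M *ᵥ ua = hM.eigenvalues a • ua := hM.mulVec_eigenvectorBasis a
  have eb : M *ᵥ ub = hM.eigenvalues b • ub := hM.mulVec_eigenvectorBasis b
  have orth := hM.eigenvectorBasis.orthonormal
  have naa : ua ⬝ᵥ ua = 1 := by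
    have h1 := orth.1 a
    have h2 : inner ℝ (hM.eigenvectorBasis a) (hM.eigenvectorBasis a) = (1:ℝ) := by
      rw [real_inner_self_eq_norm_sq, h1]; norm_num
    rw [EuclideanSpace.inner_eq_star_dotProduct] at h2
    simpa using h2
  have nbb : ub ⬝ᵥ ub = 1 := by
    have h1 := orth.1 b
    have h2 : inner ℝ (hM.eigenvectorBasis b) (hM.eigenvectorBasis b) = (1:ℝ) := by
      rw [real_inner_self_eq_norm_sq, h1]; norm_num
    rw [EuclideanSpace.inner_eq_star_dotProduct] at h2
    simpa using h2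
  have nab : ua ⬝ᵥ ub = 0 := by
    have h2 : inner ℝ (hM.eigenvectorBasis b) (hM.eigenvectorBasis a) = (0:ℝ) :=
      orth.2 (Ne.symm hab)
    rw [EuclideanSpace.inner_eq_star_dotProduct] at h2
    simpa using h2
  have nba : ub ⬝ᵥ ua = 0 := by rw [dotProduct_comm]; exact nab
  by_cases hz : l ⬝ᵥ ua = 0
  · have := h ua hz
    rw [ea, dotProduct_smul, naa] at this
    simp at this
    linarith
  · set t := l ⬝ᵥ ub with ht
    set u := l ⬝ᵥ ua with hu
    have hv : l ⬝ᵥ (t • ua + (-u) • ub) = 0 := by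
      rw [dotProduct_add, dotProduct_smul, dotProduct_smul, ← ht, ← hu]
      simp only [smul_eq_mul]; ring
    have := h _ hv
    rw [mulVec_add, mulVec_smul, mulVec_smul, ea, eb] at this
    simp only [add_dotProduct, dotProduct_add, smul_dotProduct, dotProduct_smul, naa, nbb, nab, nba,
      smul_eq_mul] at this
    have h1 : 0 < u ^ 2 := by positivity
    nlinarith [mul_nonneg (sq_nonneg t) ha.le, mul_pos h1 hb]


/-- `q` is the vector of coordinate-plane projection areas of a convex body in `ℝ⁵`. -/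
def Realizable (q : Fin 5 → Fin 5 → ℝ) : Prop :=
  ∃ A : Set (EuclideanSpace ℝ (Fin 5)), A.Nonempty ∧ IsCompact A ∧ Convex ℝ A ∧
    ∀ i j : Fin 5, i < j →
      volume ((fun x : EuclideanSpace ℝ (Fin 5) => (x i, x j)) '' A) = ENNReal.ofReal (q i j)

/-- the pentagonal vector: `5` on the edges of a pentagon, `13` on its diagonals -/
noncomputable def pent : Fin 5 → Fin 5 → ℝ := fun i j =>
  if i = j then 0 else if (j = i + 1 ∨ i = j + 1) then 5 else 13

lemma pent_symm (i j : Fin 5) : pent i j = pent j i := by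
  unfold pent
  fin_cases i <;> fin_cases j <;> simp

lemma pent_nonneg (i j : Fin 5) : 0 ≤ pent i j := by
  unfold pent
  split_ifs <;> norm_num


lemma path_quad (a b c d : ℝ) (h : 31 * a + 23 * b + 23 * c + 31 * d = 0) :
    10 * (a * b) + 10 * (b * c) + 10 * (c * d) + 26 * (a * c) + 26 * (a * d) + 26 * (b * d) ≤ 0 := by
  have key : 108 * (10 * (a * b) + 10 * (b * c) + 10 * (c * d) + 26 * (a * c) + 26 * (a * d)
      + 26 * (b * d)) = (31 * a + 23 * b + 23 * c + 31 * d) ^ 2
      - (259 * (a + d - b - c) ^ 2 + (1 / 702) * (702 * (a - d) + 432 * (b - c)) ^ 2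
        + (2916 / 702) * (b - c) ^ 2) := by ring
  rw [h] at key
  nlinarith [sq_nonneg (a + d - b - c), sq_nonneg (702 * (a - d) + 432 * (b - c)),
    sq_nonneg (b - c)]

lemma pent_quad (w : Fin 5 → ℝ) (m : Fin 5) (hm : w m = 0)
    (hl : ∑ i, (∑ j, if j = m then 0 else pent i j) * w i = 0) :
    ∑ i, ∑ j, w i * (pent i j * w j) ≤ 0 := by
  fin_cases m
  all_goals
    simp only [Fin.sum_univ_five, Fin.isValue, Fin.zero_eta, Fin.mk_one, Fin.reduceFinMk] at hm hl ⊢
    simp [pent] at hl ⊢
    simp [hm] at hl ⊢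
  · have := path_quad (w 1) (w 2) (w 3) (w 4) (by linarith)
    linarith
  · have := path_quad (w 2) (w 3) (w 4) (w 0) (by linarith)
    linarith
  · have := path_quad (w 3) (w 4) (w 0) (w 1) (by linarith)
    linarith
  · have := path_quad (w 4) (w 0) (w 1) (w 2) (by linarith)
    linarith
  · have := path_quad (w 0) (w 1) (w 2) (w 3) (by linarith)
    linarith

open Matrix in
lemma pent_minors (s : Finset (Fin 5)) (hs : s.card = 4) :
    AtMostOnePosEigenvalue
      ((Matrix.of pent).submatrix (fun a : s => (a : Fin 5)) (fun a : s => (a : Fin 5))) := by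
  classical
  -- the missing index
  obtain ⟨m, hm⟩ : ∃ m, m ∉ s := by
    by_contra h
    push Not at h
    have : s = Finset.univ := Finset.eq_univ_iff_forall.mpr h
    rw [this] at hs
    simp at hs
  apply eig_criterion _ _ (fun a : s => ∑ j, if j = m then 0 else pent a j)
  · intro v hv
    set w : Fin 5 → ℝ := fun i => if h : i ∈ s then v ⟨i, h⟩ else 0 with hw
    have hwm : w m = 0 := by simp [hw, hm]
    have hws : ∀ a : s, w a = v a := by intro a; simp [hw]
    have key : ∀ F : Fin 5 → ℝ, (∀ i, i ∉ s → F i = 0) → ∑ a : s, F a = ∑ i, F i := by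
      intro F hF
      rw [Finset.sum_coe_sort s F]
      exact Finset.sum_subset (Finset.subset_univ s) (fun i _ hi => hF i hi)
    have h1 := pent_quad w m hwm (by
      rw [← key]
      · simp only [dotProduct] at hv
        refine Eq.trans ?_ hv
        apply Finset.sum_congr rfl
        intro a _
        rw [hws]
      · intro i hi
        simp [hw, hi])
    have h2 : v ⬝ᵥ (((Matrix.of pent).submatrix (fun a : s => (a : Fin 5))
        (fun a : s => (a : Fin 5))) *ᵥ v) = ∑ i, ∑ j, w i * (pent i j * w j) := by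
      rw [← key]
      · simp only [dotProduct, mulVec, submatrix_apply, of_apply]
        apply Finset.sum_congr rfl
        intro a _
        rw [← key, Finset.mul_sum]
        · apply Finset.sum_congr rfl
          intro b _
          rw [hws, hws]
        · intro j hj
          simp [hw, hj]
      · intro i hi
        simp [hw, hi]
    rw [h2]; exact h1
  · ext a b
    simp only [conjTranspose_apply, submatrix_apply, of_apply, star_trivial]
    exact pent_symm _ _

lemma affC_coord (i : Fin 5) : AffC (fun x : EuclideanSpace ℝ (Fin 5) => x i) := by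
  refine ⟨by fun_prop, ?_⟩
  intro p q s t _
  simp

theorem not_realizable_pent : ¬ Realizable pent := by
  rintro ⟨A, hne, hA, hAc, hq⟩
  -- ranges of the coordinates
  have hrange : ∀ i : Fin 5, ∃ m M : ℝ, m ≤ M ∧ (fun x : EuclideanSpace ℝ (Fin 5) => x i) '' A = Icc m M := by
    intro i
    have hconn : IsConnected ((fun x : EuclideanSpace ℝ (Fin 5) => x i) '' A) :=
      ⟨hne.image _, hAc.isPreconnected.image _ (affC_coord i).1.continuousOn⟩
    have hcomp : IsCompact ((fun x : EuclideanSpace ℝ (Fin 5) => x i) '' A) :=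
      hA.image (affC_coord i).1
    refine ⟨_, _, ?_, eq_Icc_of_connected_compact hconn hcomp⟩
    exact csInf_le_csSup hconn.nonempty hcomp.bddBelow hcomp.bddAbove
  choose m M hmM hIcc using hrange
  -- areas, symmetric version
  have harea : ∀ i j : Fin 5, i ≠ j →
      volume ((fun x : EuclideanSpace ℝ (Fin 5) => (x i, x j)) '' A) = ENNReal.ofReal (pent i j) := by
    intro i j hij
    rcases lt_or_gt_of_ne hij with h | h
    · exact hq i j h
    · rw [pent_symm, ← hq j i h]
      have hswap : MeasurePreserving (Prod.swap : ℝ × ℝ → ℝ × ℝ) volume volume :=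
        Measure.measurePreserving_swap
      have hS : IsCompact ((fun x : EuclideanSpace ℝ (Fin 5) => (x i, x j)) '' A) :=
        hA.image ((affC_coord i).1.prodMk (affC_coord j).1)
      rw [← hswap.measure_preimage hS.measurableSet.nullMeasurableSet]
      congr 1
      ext ⟨y, z⟩
      simp only [mem_preimage, Prod.swap_prod_mk, mem_image, Prod.mk.injEq]
      constructor
      · rintro ⟨p, hp, h1, h2⟩; exact ⟨p, hp, h2, h1⟩
      · rintro ⟨p, hp, h1, h2⟩; exact ⟨p, hp, h2, h1⟩
  have hareaR : ∀ i j : Fin 5, i ≠ j →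
      (volume ((fun x : EuclideanSpace ℝ (Fin 5) => (x i, x j)) '' A)).toReal = pent i j := by
    intro i j hij
    rw [harea i j hij, ENNReal.toReal_ofReal (pent_nonneg i j)]
  -- widths are positive
  have hw : ∀ i : Fin 5, m i < M i := by
    intro i
    rcases lt_or_eq_of_le (hmM i) with h | h
    · exact h
    · exfalso
      have hij : i ≠ i + 1 := by fin_cases i <;> decide
      have h1 := harea i (i + 1) hij
      have hsub : (fun x : EuclideanSpace ℝ (Fin 5) => (x i, x (i + 1))) '' A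
          ⊆ Icc (m i) (M i) ×ˢ Icc (m (i + 1)) (M (i + 1)) := by
        rintro _ ⟨p, hp, rfl⟩
        exact ⟨(hIcc i) ▸ ⟨p, hp, rfl⟩, (hIcc (i + 1)) ▸ ⟨p, hp, rfl⟩⟩
      have h2 : volume (Icc (m i) (M i) ×ˢ Icc (m (i + 1)) (M (i + 1))) = 0 := by
        rw [Measure.volume_eq_prod, Measure.prod_prod, Real.volume_Icc, h]
        simp
      have h3 := measure_mono_null hsub h2
      rw [h3] at h1
      have h4 : pent i (i + 1) = 5 := by
        unfold pent
        rw [if_neg hij]; simp
      rw [h4] at h1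
      simp at h1
  -- the five inequalities
  have hineq : ∀ i j k : Fin 5, i ≠ j → i ≠ k → j ≠ k →
      (M k - m k) * pent i j ≤ 5 / 4 * ((M j - m j) * pent i k + (M i - m i) * pent j k) := by
    intro i j k hij hik hjk
    have := shadow_ineq hA hAc (affC_coord i) (affC_coord j) (affC_coord k) (hIcc i) (hIcc j)
      (hIcc k) (hw i) (hw j) (hw k)
    rwa [hareaR i j hij, hareaR i k hik, hareaR j k hjk] at this
  have e0 := hineq 0 2 1 (by decide) (by decide) (by decide)
  have e1 := hineq 1 3 2 (by decide) (by decide) (by decide)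
  have e2 := hineq 2 4 3 (by decide) (by decide) (by decide)
  have e3 := hineq 3 0 4 (by decide) (by decide) (by decide)
  have e4 := hineq 4 1 0 (by decide) (by decide) (by decide)
  simp [pent] at e0 e1 e2 e3 e4
  have w0 := hw 0
  have w1 := hw 1
  have w2 := hw 2
  have w3 := hw 3
  have w4 := hw 4
  linarith

/-- **Negative answer to Q1.**  There is a nonnegative vector `q` (written as a symmetric `5 × 5`
matrix with zero diagonal) all of whose `4 × 4` principal submatrices have at most one positive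
eigenvalue, and such that no convex body of `ℝ⁵` has coordinate-plane projection areas `q`. -/
theorem result : ∃ q : Fin 5 → Fin 5 → ℝ,
    (∀ i j, 0 ≤ q i j) ∧ (∀ i j, q i j = q j i) ∧ (∀ i, q i i = 0) ∧
    (∀ s : Finset (Fin 5), s.card = 4 →
      AtMostOnePosEigenvalue
        ((Matrix.of q).submatrix (fun a : s => (a : Fin 5)) (fun a : s => (a : Fin 5)))) ∧
    ¬ Realizable q :=
  ⟨pent, pent_nonneg, pent_symm, fun i => by simp [pent], pent_minors, not_realizable_pent⟩

end Pool.Agent.Results.MP_2d1483_gt.PentagonCounterexample
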